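import Pool.Agent.H3.Ps3

open scoped Manifold ContDiff
open Pool.Agent.H3.Ps

namespace Pool.Agent.Results.MP_4926dc_gt.NoNull

/-- A closed connected smooth `5`-manifold with a pseudo-Riemannian metric and a nonzero
self-adjoint parallel nilpotent `(1,1)`-tensor field, such that neither the manifold nor any of
its finite-sheeted (in particular double) covers carries a nonzero parallel null vector field. -/
theorem result : ∃ (M : Type) (_ : TopologicalSpace M) (_ : ChartedSpace (Fin 5 → ℝ) M),
    T2Space M ∧ CompactSpace M ∧ ConnectedSpace M ∧ IsManifold 𝓘(ℝ, Fin 5 → ℝ) ∞ M ∧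
      ∃ (g : Form (Fin 5 → ℝ) M) (A : Endo (Fin 5 → ℝ) M),
        IsMetric g ∧ IsNilpotentParallel g A ∧ ¬ HasParallelNull g ∧ NoneOnCovers g :=
  ⟨M, inferInstance, inferInstance, inferInstance, inferInstance, inferInstance, inferInstance,
    gM, AM, isMetric, isNil, none_self, none⟩

end Pool.Agent.Results.MP_4926dc_gt.NoNull
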